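import Pool.Agent.Q291.MK.Stm3
import Pool.Agent.Q222.MK.SLAW

set_option autoImplicit false

/-!
# Project MK, job NR: response of one full step
-/

namespace Pool.Agent.Q251.MK

open Pool.Agent.Q291.MK

/-! ### elementary facts on `Nr` -/

theorem wt_ge (e m : ℝ) (he : 0 ≤ e) (hm : 0 ≤ m) (J : ℕ) : 1 ≤ wt e m J := by
  unfold wt
  have h1 : 0 ≤ ((J:ℝ) - m) ^ 10 := by
    have : ((J:ℝ) - m) ^ 10 = (((J:ℝ) - m) ^ 5) ^ 2 := by ring
    rw [this]; positivity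
  have h2 : 0 ≤ ((J:ℝ) - m) ^ 10 / m ^ 5 := by positivity
  nlinarith [mul_nonneg he h2]

theorem Nr.mono {e : ℝ} {a h : ℕ → ℝ} {c ρ ρ' : ℝ} (H : Nr e a h c ρ) (hρ : ρ ≤ ρ') : Nr e a h c ρ' :=
  ⟨H.sg, H.mn, fun φ hφ => (H.bd φ hφ).trans hρ⟩

theorem dl_smul (t : ℝ) (φ : ℕ → ℝ) : dl (fun k => t * φ k) = fun k => t * dl φ k := by
  funext k
  unfold dl
  ring

/-- scaling of the test functions -/
theorem Nr.scale {e : ℝ} {a h : ℕ → ℝ} {c ρ : ℝ} (H : Nr e a h c ρ) {lam : ℝ} (hl : 1 ≤ lam) (he : 0 ≤ e)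
    (hm : 0 ≤ mean a) : Nr (lam * e) a h c (lam * ρ) := by
  refine ⟨H.sg, H.mn, fun φ hφ => ?_⟩
  have hl0 : 0 < lam := by linarith
  have ht : Tst e (mean a) (fun k => lam⁻¹ * φ k) := by
    refine ⟨(PB.const lam⁻¹).mul hφ.pb, fun J => ?_⟩
    rw [dl_smul, dl_smul]
    show |lam⁻¹ * dl (dl φ) J| ≤ wt e (mean a) J
    rw [abs_mul, abs_of_pos (inv_pos.2 hl0), inv_mul_le_iff₀ hl0]
    refine (hφ.bd J).trans ?_
    unfold wt
    have h1 : 0 ≤ ((J:ℝ) - mean a) ^ 10 := by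
      have : ((J:ℝ) - mean a) ^ 10 = (((J:ℝ) - mean a) ^ 5) ^ 2 := by ring
      rw [this]; positivity
    have h2 : 0 ≤ ((J:ℝ) - mean a) ^ 10 / mean a ^ 5 := by positivity
    have h3 := mul_nonneg he h2
    nlinarith
  have h1 := H.bd _ ht
  rw [dl_smul, E_const_mul, E_const_mul] at h1
  have h2 : lam⁻¹ * E h φ - c * (lam⁻¹ * E a (dl φ)) = lam⁻¹ * (E h φ - c * E a (dl φ)) := by ring
  rw [h2, abs_mul, abs_of_pos (inv_pos.2 hl0), inv_mul_le_iff₀ hl0] at h1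
  exact h1

/-- the derivative of the variance is bounded -/
theorem dv_bd {e : ℝ} {a h : ℕ → ℝ} {c ρ : ℝ} (ha : AM a) (H : Nr e a h c ρ) (he : 0 ≤ e) (hm : 0 ≤ mean a) :
    |dv a h| ≤ |c| + 2 * ρ := by
  have hpb : PB (fun k => ((k:ℝ) - mean a) ^ 2) := (PB.id.sub (PB.const _)).pow 2
  have hd1 : ∀ k, dl (fun k => (1 / 2 : ℝ) * ((k:ℝ) - mean a) ^ 2) k = ((k:ℝ) - mean a) + 1 / 2 := by
    intro k
    unfold dl
    push_cast
    ring
  have ht : Tst e (mean a) (fun k => (1 / 2 : ℝ) * ((k:ℝ) - mean a) ^ 2) := by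
    refine ⟨(PB.const _).mul hpb, fun J => ?_⟩
    have : dl (dl (fun k => (1 / 2 : ℝ) * ((k:ℝ) - mean a) ^ 2)) J = 1 := by
      show dl (fun k => (1 / 2 : ℝ) * ((k:ℝ) - mean a) ^ 2) (J + 1) - dl (fun k => (1 / 2 : ℝ) * ((k:ℝ) - mean a) ^ 2) J = 1
      rw [hd1, hd1]
      push_cast
      ring
    rw [this, abs_one]
    exact wt_ge e _ he hm J
  have h1 := H.bd _ ht
  have h2 : E a (dl (fun k => (1 / 2 : ℝ) * ((k:ℝ) - mean a) ^ 2)) = 1 / 2 := by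
    have e1 : dl (fun k => (1 / 2 : ℝ) * ((k:ℝ) - mean a) ^ 2) = fun k : ℕ => ((k:ℝ) - mean a) + 1 / 2 := funext hd1
    rw [e1, ha.E_add (PB.id.sub (PB.const _)) (PB.const _), ha.E_sub PB.id (PB.const _), ha.toLaw.E_const,
      ha.toLaw.E_const]
    have : E a (fun k => (k:ℝ)) = mean a := rfl
    rw [this]
    ring
  rw [h2, E_const_mul] at h1
  have h3 : E h (fun k => ((k:ℝ) - mean a) ^ 2) = dv a h := rfl
  rw [h3] at h1
  have h4 : dv a h = 2 * (1 / 2 * dv a h - c * (1 / 2)) + c := by ring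
  rw [h4]
  refine (abs_add_le _ _).trans ?_
  rw [abs_mul, abs_of_pos (by norm_num : (0:ℝ) < 2)]
  linarith

/-! ### real estimates -/

theorem flow1 {μ s0 v0 μ1 v1 D0 : ℝ} (hμ : 10 ≤ μ) (hs0 : 0 ≤ s0) (hs1 : s0 ≤ 1) (hv : v0 = s0 * μ)
    (hD0 : 0 < D0) (hb : 4 * D0 ≤ μ) (h1 : |μ1 - (μ / 2 - 1 / 8 - 5 / 8 * s0)| ≤ D0 / μ)
    (h2 : |v1 - (μ / 8 + v0 / 8)| ≤ D0) :
    |μ1 - μ / 2| ≤ 1 ∧ μ / 4 ≤ μ1 ∧ |v1 / μ1 - (1 / 4 + s0 / 4)| ≤ (4 * D0 + 4) / μ := by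
  have hμ0 : 0 < μ := by linarith
  have h3 : D0 / μ ≤ 1 / 4 := by rw [div_le_iff₀ hμ0]; linarith
  obtain ⟨h1a, h1b⟩ := abs_le.1 h1
  obtain ⟨h2a, h2b⟩ := abs_le.1 h2
  have h4 : |μ1 - μ / 2| ≤ 1 := by
    rw [abs_le]; constructor <;> linarith
  obtain ⟨h4a, h4b⟩ := abs_le.1 h4
  have h5 : μ / 4 ≤ μ1 := by linarith
  have h6 : 0 < μ1 := by linarith
  refine ⟨h4, h5, ?_⟩
  have h7 : v1 / μ1 - (1 / 4 + s0 / 4) = (v1 - (1 / 4 + s0 / 4) * μ1) / μ1 := by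
    field_simp
  have h8 : |v1 - (1 / 4 + s0 / 4) * μ1| ≤ D0 + 1 := by
    have e : v1 - (1 / 4 + s0 / 4) * μ1 = (v1 - (μ / 8 + v0 / 8)) - (1 / 4 + s0 / 4) * (μ1 - μ / 2) := by
      rw [hv]; ring
    rw [e]
    refine (abs_sub _ _).trans ?_
    rw [abs_mul, abs_of_nonneg (by positivity : (0:ℝ) ≤ 1 / 4 + s0 / 4)]
    have : (1 / 4 + s0 / 4) * |μ1 - μ / 2| ≤ 1 * 1 :=
      mul_le_mul (by linarith) h4 (abs_nonneg _) (by norm_num)
    linarith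
  rw [h7, abs_div, abs_of_pos h6, div_le_div_iff₀ h6 hμ0]
  have h9 : 0 ≤ |v1 - (1 / 4 + s0 / 4) * μ1| := abs_nonneg _
  calc |v1 - (1 / 4 + s0 / 4) * μ1| * μ ≤ (D0 + 1) * μ := mul_le_mul_of_nonneg_right h8 hμ0.le
    _ = (4 * D0 + 4) * (μ / 4) := by ring
    _ ≤ (4 * D0 + 4) * μ1 := mul_le_mul_of_nonneg_left h5 (by positivity)

theorem resp {μ r μ1 r1 s0 s1 c ρ dv0 dv1 dv2 c1 c2 ρ1 A1 D1 D2 : ℝ} (hr : 1 ≤ r) (hμr : μ = r ^ 2)
    (hμ1 : μ / 4 ≤ μ1) (hμ1' : |μ1 - μ / 2| ≤ 1) (hr1 : r / 2 ≤ r1) (hs00 : 0 ≤ s0) (hs01 : s0 ≤ 1)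
    (hA1 : 0 ≤ A1) (hD1 : 0 < D1) (hD2 : 0 < D2) (hρ : 0 ≤ ρ)
    (hs1 : |s1 - (1 / 4 + s0 / 4)| ≤ A1 / μ) (hdv0 : |dv0| ≤ |c| + 2 * ρ)
    (hc1 : |c1 - (c / 2 - 5 / 8 * ((dv0 - s0 * c) / μ))| ≤ D1 * (|c| + 10201 / 2500 * ρ) / (μ * r))
    (hdv1 : |dv1 - (dv0 / 8 + c / 8)| ≤ D1 * (|c| + 10201 / 2500 * ρ) / r)
    (hρ1 : ρ1 = 101 / 800 * (10201 / 2500 * ρ) + D1 * |c|)
    (hc2 : |c2 - (c1 / 2 - 5 / 8 * ((dv1 - s1 * c1) / μ1))| ≤ D2 * (|c1| + ρ1) / (μ1 * r1))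
    (hdv2 : |dv2 - (dv1 / 8 + c1 / 8)| ≤ D2 * (|c1| + ρ1) / r1)
    (hbig : 2 * (2 + 5 * D1) ≤ μ) :
    |c1| ≤ |c| / 2 + (2 + 5 * D1) * (|c| + ρ) / μ ∧
    |4 * c2 - c + 15 / 8 * ((dv0 - s0 * c) / μ)| ≤
      (32 * (D2 * (2 + D1)) + 10 * D1 + 10 * (5 * D1 + A1 + (2 + 5 * D1)) + 8) * (|c| + ρ) / (μ * r) ∧
    |4 * dv2 - (dv0 / 16 + 5 / 16 * c)| ≤ (8 * (D2 * (2 + D1)) + 5 * D1 + (2 + 5 * D1)) * (|c| + ρ) / r := by
  have hr0 : 0 < r := by linarith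
  have hμ0 : 0 < μ := by rw [hμr]; positivity
  have hμr' : r ≤ μ := by rw [hμr]; nlinarith
  have hμ10 : 0 < μ1 := by linarith
  have hr10 : 0 < r1 := by linarith
  have hc0 := abs_nonneg c
  set x : ℝ := |c| + ρ with hx
  have hx0 : 0 ≤ x := by positivity
  set A2 : ℝ := 2 + 5 * D1 with hA2
  have hA20 : 0 ≤ A2 := by positivity
  have e1 : D1 * (|c| + 10201 / 2500 * ρ) ≤ 5 * D1 * x := by
    have : |c| + 10201 / 2500 * ρ ≤ 5 * x := by rw [hx]; linarith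
    have := mul_le_mul_of_nonneg_left this hD1.le
    linarith only [this]
  set w : ℝ := dv0 - s0 * c with hw
  have w3 : |w| ≤ 3 * x := by
    rw [hw]
    refine (abs_sub _ _).trans ?_
    rw [abs_mul, abs_of_nonneg hs00]
    have : s0 * |c| ≤ 1 * |c| := mul_le_mul_of_nonneg_right hs01 hc0
    rw [hx]; linarith
  have hxr : x / (μ * r) ≤ x / μ := by
    apply div_le_div_of_nonneg_left hx0 hμ0
    nlinarith
  have hc1' : |c1 - c / 2| ≤ A2 * x / μ := by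
    have e : c1 - c / 2 = (c1 - (c / 2 - 5 / 8 * (w / μ))) - 5 / 8 * (w / μ) := by ring
    rw [e]
    refine (abs_sub _ _).trans ?_
    rw [abs_mul, abs_of_pos (by norm_num : (0:ℝ) < 5 / 8), abs_div, abs_of_pos hμ0]
    have a1 : D1 * (|c| + 10201 / 2500 * ρ) / (μ * r) ≤ 5 * D1 * x / (μ * r) :=
      div_le_div_of_nonneg_right e1 (by positivity)
    have a2 : 5 * D1 * x / (μ * r) ≤ 5 * D1 * x / μ := by
      have : 5 * D1 * x / (μ * r) = 5 * D1 * (x / (μ * r)) := by ring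
      rw [this]
      have : 5 * D1 * x / μ = 5 * D1 * (x / μ) := by ring
      rw [this]
      exact mul_le_mul_of_nonneg_left hxr (by positivity)
    have a3 : 5 / 8 * (|w| / μ) ≤ 2 * x / μ := by
      rw [mul_div_assoc']
      apply div_le_div_of_nonneg_right _ hμ0.le
      linarith
    have a4 : A2 * x / μ = 5 * D1 * x / μ + 2 * x / μ := by rw [hA2]; ring
    rw [a4]
    linarith [hc1.trans (a1.trans a2)]
  have hA2μ : A2 * x / μ ≤ x / 2 := by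
    rw [div_le_div_iff₀ hμ0 (by norm_num)]
    have := mul_le_mul_of_nonneg_right hbig hx0
    linarith only [this]
  have hc1'' : |c1| ≤ |c| / 2 + A2 * x / μ := by
    have e : c1 = (c1 - c / 2) + c / 2 := by ring
    calc |c1| = |(c1 - c / 2) + c / 2| := by rw [← e]
      _ ≤ |c1 - c / 2| + |c / 2| := abs_add_le _ _
      _ ≤ A2 * x / μ + |c| / 2 := by
          rw [abs_div, abs_of_pos (by norm_num : (0:ℝ) < 2)]
          linarith
      _ = _ := by ring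
  have hc1x : |c1| ≤ x := by rw [hx] at hA2μ hc1'' ⊢; linarith
  have hρ10 : 0 ≤ ρ1 := by rw [hρ1]; positivity
  have hρ1x : ρ1 ≤ (1 + D1) * x := by
    rw [hρ1, hx]
    nlinarith [mul_nonneg hD1.le hρ]
  have e2 : |c1| + ρ1 ≤ (2 + D1) * x := by linarith
  have hμr1 : μ * r / 8 ≤ μ1 * r1 := by
    calc μ * r / 8 = (μ / 4) * (r / 2) := by ring
      _ ≤ μ1 * r1 := mul_le_mul hμ1 hr1 (by positivity) hμ10.le
  have e3 : D2 * (|c1| + ρ1) ≤ D2 * (2 + D1) * x := by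
    have := mul_le_mul_of_nonneg_left e2 hD2.le
    linarith
  have hc2' : |c2 - (c1 / 2 - 5 / 8 * ((dv1 - s1 * c1) / μ1))| ≤ 8 * (D2 * (2 + D1)) * x / (μ * r) := by
    refine hc2.trans ?_
    rw [div_le_div_iff₀ (by positivity) (by positivity)]
    calc D2 * (|c1| + ρ1) * (μ * r) ≤ D2 * (2 + D1) * x * (μ * r) :=
          mul_le_mul_of_nonneg_right e3 (by positivity)
      _ = 8 * (D2 * (2 + D1)) * x * (μ * r / 8) := by ring
      _ ≤ 8 * (D2 * (2 + D1)) * x * (μ1 * r1) := mul_le_mul_of_nonneg_left hμr1 (by positivity)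
  have hdv2' : |dv2 - (dv1 / 8 + c1 / 8)| ≤ 2 * (D2 * (2 + D1)) * x / r := by
    refine hdv2.trans ?_
    rw [div_le_div_iff₀ (by positivity) (by positivity)]
    calc D2 * (|c1| + ρ1) * r ≤ D2 * (2 + D1) * x * r := mul_le_mul_of_nonneg_right e3 (by positivity)
      _ = 2 * (D2 * (2 + D1)) * x * (r / 2) := by ring
      _ ≤ 2 * (D2 * (2 + D1)) * x * r1 := mul_le_mul_of_nonneg_left hr1 (by positivity)
  have hdv1' : |dv1 - (dv0 / 8 + c / 8)| ≤ 5 * D1 * x / r :=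
    hdv1.trans (div_le_div_of_nonneg_right e1 hr0.le)
  set A3 : ℝ := 5 * D1 + A1 + A2 with hA3
  have hA30 : 0 ≤ A3 := by positivity
  have hP : |(dv1 - s1 * c1) - w / 8| ≤ A3 * x / r := by
    have e : (dv1 - s1 * c1) - w / 8 = (dv1 - (dv0 / 8 + c / 8)) -
        ((s1 - (1 / 4 + s0 / 4)) * c1 + (1 / 4 + s0 / 4) * (c1 - c / 2)) := by
      rw [hw]; ring
    rw [e]
    refine (abs_sub _ _).trans ?_
    have a1 : |(s1 - (1 / 4 + s0 / 4)) * c1 + (1 / 4 + s0 / 4) * (c1 - c / 2)| ≤ (A1 + A2) * x / r := by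
      refine (abs_add_le _ _).trans ?_
      rw [abs_mul, abs_mul, abs_of_nonneg (by positivity : (0:ℝ) ≤ 1 / 4 + s0 / 4)]
      have b1 : |s1 - (1 / 4 + s0 / 4)| * |c1| ≤ A1 / μ * x := mul_le_mul hs1 hc1x (abs_nonneg _) (by positivity)
      have b2 : (1 / 4 + s0 / 4) * |c1 - c / 2| ≤ 1 * (A2 * x / μ) :=
        mul_le_mul (by linarith) hc1' (abs_nonneg _) (by norm_num)
      have b3 : (A1 + A2) * x / μ ≤ (A1 + A2) * x / r :=
        div_le_div_of_nonneg_left (by positivity) hr0 hμr'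
      have b4 : A1 / μ * x + 1 * (A2 * x / μ) = (A1 + A2) * x / μ := by ring
      linarith
    have a2 : A3 * x / r = 5 * D1 * x / r + (A1 + A2) * x / r := by rw [hA3]; ring
    rw [a2]
    exact add_le_add hdv1' a1
  have hQ : |(dv1 - s1 * c1) / μ1 - w / (4 * μ)| ≤ (4 * A3 + 3) * x / (μ * r) := by
    have e : (dv1 - s1 * c1) / μ1 - w / (4 * μ) = ((dv1 - s1 * c1) - w / 8) / μ1 + (w / 8) * ((μ - 2 * μ1) / (μ1 * μ)) := by
      field_simp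
      ring
    rw [e]
    refine (abs_add_le _ _).trans ?_
    have a1 : |((dv1 - s1 * c1) - w / 8) / μ1| ≤ 4 * A3 * x / (μ * r) := by
      rw [abs_div, abs_of_pos hμ10, div_le_div_iff₀ hμ10 (by positivity)]
      calc |(dv1 - s1 * c1) - w / 8| * (μ * r) ≤ A3 * x / r * (μ * r) := mul_le_mul_of_nonneg_right hP (by positivity)
        _ = 4 * A3 * x * (μ / 4) := by field_simp
        _ ≤ 4 * A3 * x * μ1 := mul_le_mul_of_nonneg_left hμ1 (by positivity)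
    have a2 : |(w / 8) * ((μ - 2 * μ1) / (μ1 * μ))| ≤ 3 * x / (μ * r) := by
      rw [abs_mul, abs_div w, abs_of_pos (by norm_num : (0:ℝ) < 8), abs_div, abs_of_pos (by positivity : 0 < μ1 * μ)]
      have b1 : |μ - 2 * μ1| ≤ 2 := by
        obtain ⟨c1, c2⟩ := abs_le.1 hμ1'
        rw [abs_le]; constructor <;> linarith
      have b2 : |μ - 2 * μ1| / (μ1 * μ) ≤ 8 / (μ * r) := by
        rw [div_le_div_iff₀ (by positivity) (by positivity)]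
        calc |μ - 2 * μ1| * (μ * r) ≤ 2 * (μ * μ) :=
              mul_le_mul b1 (mul_le_mul_of_nonneg_left hμr' hμ0.le) (by positivity) (by norm_num)
          _ = 8 * ((μ / 4) * μ) := by ring
          _ ≤ 8 * (μ1 * μ) := by
              have := mul_le_mul_of_nonneg_right hμ1 hμ0.le
              linarith
      calc |w| / 8 * (|μ - 2 * μ1| / (μ1 * μ)) ≤ (3 * x) / 8 * (8 / (μ * r)) :=
            mul_le_mul (by linarith only [w3]) b2 (by positivity) (by positivity)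
        _ = 3 * x / (μ * r) := by ring
    have a3 : (4 * A3 + 3) * x / (μ * r) = 4 * A3 * x / (μ * r) + 3 * x / (μ * r) := by ring
    rw [a3]
    exact add_le_add a1 a2
  have hc1m : |c1 - (c / 2 - 5 / 8 * (w / μ))| ≤ 5 * D1 * x / (μ * r) :=
    hc1.trans (div_le_div_of_nonneg_right e1 (by positivity))
  refine ⟨hc1'', ?_, ?_⟩
  · have e : 4 * c2 - c + 15 / 8 * (w / μ) = 4 * (c2 - (c1 / 2 - 5 / 8 * ((dv1 - s1 * c1) / μ1))) +
        2 * (c1 - (c / 2 - 5 / 8 * (w / μ))) - 5 / 2 * ((dv1 - s1 * c1) / μ1 - w / (4 * μ)) := by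
      have : w / (4 * μ) = w / μ / 4 := by field_simp
      rw [this]
      ring
    rw [e]
    refine (abs_sub _ _).trans ?_
    refine (add_le_add (abs_add_le _ _) le_rfl).trans ?_
    rw [abs_mul, abs_mul, abs_mul, abs_of_pos (by norm_num : (0:ℝ) < 4), abs_of_pos (by norm_num : (0:ℝ) < 2),
      abs_of_pos (by norm_num : (0:ℝ) < 5 / 2)]
    set y : ℝ := x / (μ * r) with hy
    have hy0 : 0 ≤ y := by positivity
    have g1 : 8 * (D2 * (2 + D1)) * x / (μ * r) = 8 * (D2 * (2 + D1)) * y := by rw [hy]; ring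
    have g2 : 5 * D1 * x / (μ * r) = 5 * D1 * y := by rw [hy]; ring
    have g3 : (4 * A3 + 3) * x / (μ * r) = (4 * A3 + 3) * y := by rw [hy]; ring
    have g4 : (32 * (D2 * (2 + D1)) + 10 * D1 + 10 * A3 + 8) * x / (μ * r) =
        (32 * (D2 * (2 + D1)) + 10 * D1 + 10 * A3 + 8) * y := by rw [hy]; ring
    rw [g1] at hc2'
    rw [g2] at hc1m
    rw [g3] at hQ
    rw [g4]
    linarith only [hc2', hc1m, hQ, hy0]
  · have e : 4 * dv2 - (dv0 / 16 + 5 / 16 * c) = 4 * (dv2 - (dv1 / 8 + c1 / 8)) +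
        1 / 2 * (dv1 - (dv0 / 8 + c / 8)) + 1 / 2 * (c1 - c / 2) := by ring
    rw [e]
    refine (abs_add_le _ _).trans ?_
    refine (add_le_add (abs_add_le _ _) le_rfl).trans ?_
    rw [abs_mul, abs_mul, abs_mul, abs_of_pos (by norm_num : (0:ℝ) < 4), abs_of_pos (by norm_num : (0:ℝ) < 1 / 2)]
    have b3 : A2 * x / μ ≤ A2 * x / r := div_le_div_of_nonneg_left (by positivity) hr0 hμr'
    set y : ℝ := x / r with hy
    have hy0 : 0 ≤ y := by positivity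
    have g1 : 2 * (D2 * (2 + D1)) * x / r = 2 * (D2 * (2 + D1)) * y := by rw [hy]; ring
    have g2 : 5 * D1 * x / r = 5 * D1 * y := by rw [hy]; ring
    have g3 : A2 * x / r = A2 * y := by rw [hy]; ring
    have g4 : (8 * (D2 * (2 + D1)) + 5 * D1 + A2) * x / r = (8 * (D2 * (2 + D1)) + 5 * D1 + A2) * y := by rw [hy]; ring
    rw [g1] at hdv2'
    rw [g2] at hdv1'
    rw [g3] at b3
    rw [g4]
    have h5 : 0 ≤ D1 * y := by positivity
    have h6 : 0 ≤ A2 * y := by positivity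
    linarith only [hdv2', hdv1', hc1', b3, h5, h6]

/-- JOB NR. -/
theorem t_NR : P_NT → P_NS → P_NR := by
  intro hNT hNS C3 C8 C12 M0 D0 h3 h8 h12 hM0 hD0 hP
  have hSM : P_SM := Pool.Agent.Q222.MK.t_SLAW.2
  obtain ⟨e0, he0, HT⟩ := hNT C3 C8 C12 h3 h8 h12
  obtain ⟨e0', he0', HS⟩ := hNS C3 C8 C12 h3 h8 h12
  obtain ⟨e, he, hee, hee'⟩ : ∃ e : ℝ, 0 < e ∧ e ≤ e0 ∧ e ≤ e0' :=
    ⟨min e0 e0', lt_min he0 he0', min_le_left _ _, min_le_right _ _⟩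
  obtain ⟨e3, he3⟩ : ∃ e3 : ℝ, e3 = 101 / 3200 * e := ⟨_, rfl⟩
  obtain ⟨e2, he2⟩ : ∃ e2 : ℝ, e2 = 101 / 3200 * e3 := ⟨_, rfl⟩
  obtain ⟨e1, he1⟩ : ∃ e1 : ℝ, e1 = 64 * e2 := ⟨_, rfl⟩
  have p3 : 0 < e3 := by rw [he3]; positivity
  have p2 : 0 < e2 := by rw [he2]; positivity
  have p1 : 0 < e1 := by rw [he1]; positivity
  obtain ⟨D1, M1, hD1, hM1, HT1⟩ := HT e1 p1 (by rw [he1, he2, he3]; linarith)
  obtain ⟨D2, M2, hD2, hM2, HT2⟩ := HT e2 p2 (by rw [he2, he3]; linarith)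
  have HS3 := HS e3 p3 (by rw [he3]; linarith)
  have HS4 := HS e he hee'
  rw [← he2] at HS3
  rw [← he3] at HS4
  rw [← he1] at HT2
  have hlam : 64 * e1 = 10201 / 2500 * e := by rw [he1, he2, he3]; ring
  set A1 : ℝ := 4 * D0 + 4 with hA1
  have hA10 : 0 ≤ A1 := by positivity
  set A2 : ℝ := 2 + 5 * D1 with hA2
  have hA20 : 0 ≤ A2 := by positivity
  set Dc : ℝ := 32 * (D2 * (2 + D1)) + 10 * D1 + 10 * (5 * D1 + A1 + A2) + 8 with hDc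
  set Dv : ℝ := 8 * (D2 * (2 + D1)) + 5 * D1 + A2 with hDv
  have hDc0 : 0 ≤ Dc := by positivity
  have hDv0 : 0 ≤ Dv := by positivity
  refine ⟨e, Dc + Dv + (18 * D0 + 13 * A1) + (D1 + 5 * D2), 16 * M0 + M1 + 4 * M2 + 16 * D0 + 2 * A2 + 41 * (D2 * A2),
    he, by positivity, ?_, ?_⟩
  · have := mul_nonneg hD2.le hA20
    linarith
  intro a ha hM
  have hDA : 0 ≤ D2 * A2 := mul_nonneg hD2.le hA20
  obtain ⟨μ, hμ⟩ : ∃ μ, μ = mean a := ⟨_, rfl⟩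
  rw [← hμ] at hM
  have b0 : 160 ≤ μ := by linarith
  have hμ0 : 0 < μ := by linarith
  -- first step
  obtain ⟨clT, -, f1, g1⟩ := hP a ha (by rw [← hμ]; linarith)
  have vr0 : ∀ b : ℕ → ℝ, AM b → 0 ≤ vr b := by
    intro b hb
    unfold vr E
    exact tsum_nonneg fun k => mul_nonneg (hb.nn k) (sq_nonneg _)
  have hv0 := vr0 a ha.toAM
  have hvm := ha.vr_le
  rw [← hμ] at hvm f1 g1
  obtain ⟨s0, hs0⟩ : ∃ s0, s0 = vr a / μ := ⟨_, rfl⟩
  rw [← hs0] at f1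
  have s00 : 0 ≤ s0 := by rw [hs0]; positivity
  have s01 : s0 ≤ 1 := by rw [hs0, div_le_one hμ0]; exact hvm
  have hv0s : vr a = s0 * μ := by rw [hs0]; field_simp
  obtain ⟨q1, q2, q3⟩ := flow1 (by linarith) s00 s01 hv0s hD0 (by linarith) f1 g1
  obtain ⟨μ1, hμ1⟩ : ∃ μ1, μ1 = mean (T a) := ⟨_, rfl⟩
  rw [← hμ1] at q1 q2 q3 f1
  have hμ10 : 0 < μ1 := by linarith
  -- second step
  obtain ⟨clTT, -, f2, g2⟩ := hP (T a) clT (by rw [← hμ1]; linarith)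
  have hv1 := vr0 (T a) clT.toAM
  have hvm1 := clT.vr_le
  rw [← hμ1] at hvm1 f2 g2
  obtain ⟨s1, hs1⟩ : ∃ s1, s1 = vr (T a) / μ1 := ⟨_, rfl⟩
  rw [← hs1] at f2 q3
  have s10 : 0 ≤ s1 := by rw [hs1]; positivity
  have s11 : s1 ≤ 1 := by rw [hs1, div_le_one hμ10]; exact hvm1
  have hv1s : vr (T a) = s1 * μ1 := by rw [hs1]; field_simp
  obtain ⟨q1', q2', q3'⟩ := flow1 (by linarith) s10 s11 hv1s hD0 (by linarith) f2 g2
  obtain ⟨μ2, hμ2⟩ : ∃ μ2, μ2 = mean (T (T a)) := ⟨_, rfl⟩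
  rw [← hμ2] at q1' q2' q3' f2
  have hμ20 : 0 < μ2 := by linarith
  have hM2' : M0 ≤ μ2 := by linarith
  -- third and fourth step
  obtain ⟨-, clS, -, -⟩ := hP (T (T a)) clTT (by rw [← hμ2]; exact hM2')
  obtain ⟨m3, v3, -⟩ := hSM (T (T a)) clTT.toAM
  obtain ⟨-, clR, -, -⟩ := hP (S (T (T a))) clS (by rw [m3, ← hμ2]; linarith)
  obtain ⟨m4, v4, -⟩ := hSM (S (T (T a))) clS.toAM
  have hRm : mean (R a) = 4 * μ2 := by
    show mean (S (S (T (T a)))) = 4 * μ2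
    rw [m4, m3, hμ2]; ring
  have hRv : vr (R a) = 4 * vr (T (T a)) := by
    show vr (S (S (T (T a)))) = 4 * vr (T (T a))
    rw [v4, v3]; ring
  have hRs : vr (R a) / mean (R a) = vr (T (T a)) / μ2 := by
    rw [hRm, hRv]
    field_simp
  obtain ⟨s4, hs4⟩ : ∃ s4, s4 = vr (T (T a)) / μ2 := ⟨_, rfl⟩
  rw [← hs4] at q3' hRs
  have q3'' : |s4 - (1 / 4 + s1 / 4)| ≤ 4 * A1 / μ := by
    refine q3'.trans ?_
    rw [div_le_div_iff₀ hμ10 hμ0]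
    have := mul_le_mul_of_nonneg_left q2 hA10
    linarith only [this]
  have hss : |s4 - (5 / 16 + s0 / 16)| ≤ 5 * A1 / μ := by
    have e : s4 - (5 / 16 + s0 / 16) = (s4 - (1 / 4 + s1 / 4)) + 1 / 4 * (s1 - (1 / 4 + s0 / 4)) := by ring
    rw [e]
    refine (abs_add_le _ _).trans ?_
    rw [abs_mul, abs_of_pos (by norm_num : (0:ℝ) < 1 / 4)]
    have e2 : 5 * A1 / μ = 4 * A1 / μ + A1 / μ := by ring
    have e3 : 0 ≤ A1 / μ := by positivity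
    rw [e2]
    linarith
  have hDle : ∀ d : ℝ, d ≤ Dc + Dv + (18 * D0 + 13 * A1) + (D1 + 5 * D2) →
      d / μ ≤ (Dc + Dv + (18 * D0 + 13 * A1) + (D1 + 5 * D2)) / μ := fun d hd => div_le_div_of_nonneg_right hd hμ0.le
  refine ⟨clR, ?_, ?_, ?_⟩
  · rw [hRs, hRm, ← hμ, ← hs0]
    have e : (4 * μ2 - 2 * s4) - (μ - 2 * s0) + 2 = 4 * (μ2 - (μ1 / 2 - 1 / 8 - 5 / 8 * s1)) +
        2 * (μ1 - (μ / 2 - 1 / 8 - 5 / 8 * s0)) - (2 * (s4 - (5 / 16 + s0 / 16)) +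
        5 / 2 * (s1 - (1 / 4 + s0 / 4))) := by ring
    rw [e]
    refine (abs_sub _ _).trans ?_
    refine (add_le_add (abs_add_le _ _) (abs_add_le _ _)).trans ?_
    rw [abs_mul, abs_mul, abs_mul, abs_mul, abs_of_pos (by norm_num : (0:ℝ) < 4), abs_of_pos (by norm_num : (0:ℝ) < 2),
      abs_of_pos (by norm_num : (0:ℝ) < 5 / 2)]
    have f2' : |μ2 - (μ1 / 2 - 1 / 8 - 5 / 8 * s1)| ≤ 4 * D0 / μ := by
      refine f2.trans ?_
      rw [div_le_div_iff₀ hμ10 hμ0]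
      have := mul_le_mul_of_nonneg_left q2 hD0.le
      linarith only [this]
    refine le_trans ?_ (hDle (18 * D0 + 13 * A1) (by linarith))
    have z1 : (18 * D0 + 13 * A1) / μ = 4 * (4 * D0 / μ) + 2 * (D0 / μ) + (2 * (5 * A1 / μ) + 3 * (A1 / μ)) := by ring
    have z2 : 0 ≤ A1 / μ := by positivity
    rw [z1]
    linarith
  · rw [hRs, ← hμ, ← hs0]
    exact hss.trans (hDle (5 * A1) (by linarith))
  intro h c ρ hN hρ
  have hc0 := abs_nonneg c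
  -- the responses
  have hN0 : Nr (64 * e1) a h c (10201 / 2500 * ρ) := by
    rw [hlam]
    exact Nr.scale hN (by norm_num) he.le (by rw [← hμ]; exact hμ0.le)
  have R1 : Rg C3 C8 C12 M1 a := ⟨ha, clT, by rw [← hμ]; linarith, by rw [← hμ, ← hμ1]; exact q1⟩
  have R2 : Rg C3 C8 C12 M2 (T a) := ⟨clT, clTT, by rw [← hμ1]; linarith, by rw [← hμ1, ← hμ2]; exact q1'⟩
  obtain ⟨c1, N1, hc1, hdv1⟩ := HT1 a R1 h c _ hN0
  obtain ⟨ρ1, hρ1⟩ : ∃ ρ1, ρ1 = 101 / 800 * (10201 / 2500 * ρ) + D1 * |c| := ⟨_, rfl⟩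
  rw [← hρ1] at N1
  obtain ⟨c2, N2, hc2, hdv2⟩ := HT2 (T a) R2 (dT a h) c1 ρ1 N1
  obtain ⟨N3, hdv3⟩ := HS3 (T (T a)) clTT (by rw [← hμ2]; linarith) _ c2 _ N2
  obtain ⟨N4, hdv4⟩ := HS4 (S (T (T a))) clS (by rw [m3, ← hμ2]; linarith) _ _ _ N3
  have hdR : dv (R a) (dR a h) = 4 * dv (T (T a)) (dT (T a) (dT a h)) := by
    show dv (S (S (T (T a)))) (dS (S (T (T a))) (dS (T (T a)) (dT (T a) (dT a h)))) = _
    rw [hdv4, hdv3]; ring
  have hdv0 := dv_bd ha.toAM hN he.le (by rw [← hμ]; exact hμ0.le)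
  rw [← hμ] at hc1 hdv1
  rw [← hs0] at hc1
  rw [← hμ1] at hc2 hdv2
  rw [← hs1] at hc2
  have hr1 : 1 ≤ √μ := by rw [Real.one_le_sqrt]; linarith
  have hsq : μ = √μ ^ 2 := (Real.sq_sqrt hμ0.le).symm
  have hr12 : √μ / 2 ≤ √μ1 := by
    have : √(μ / 4) = √μ / 2 := by
      rw [Real.sqrt_div hμ0.le, show (4:ℝ) = 2 ^ 2 by norm_num, Real.sqrt_sq (by norm_num)]
    rw [← this]
    exact Real.sqrt_le_sqrt q2
  obtain ⟨z1, z2, z3⟩ := resp hr1 hsq q2 q1 hr12 s00 s01 hA10 hD1 hD2 hρ q3 hdv0 hc1 hdv1 hρ1 hc2 hdv2 (by linarith)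
  have hr0 : 0 < √μ := by linarith
  have hx0 : 0 ≤ |c| + ρ := by positivity
  refine ⟨2 * (2 * c2), ?_, ?_, ?_⟩
  · refine Nr.mono N4 ?_
    have y1 : A2 * (|c| + ρ) / μ ≤ |c| / 2 + A2 * ρ / μ := by
      have : A2 * (|c| + ρ) / μ = A2 * |c| / μ + A2 * ρ / μ := by ring
      rw [this]
      have : A2 * |c| / μ ≤ |c| / 2 := by
        rw [div_le_div_iff₀ hμ0 (by norm_num)]
        have t1 : 2 * A2 ≤ μ := by linarith only [hM, hM0, hM1, hM2, hD0, hDA]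
        have := mul_le_mul_of_nonneg_right t1 hc0
        linarith only [this]
      linarith only [this]
    have y2 : |c1| ≤ |c| + A2 * ρ / μ := by linarith
    have y3 : 41 * (D2 * (A2 * ρ / μ)) ≤ ρ := by
      have : 41 * (D2 * (A2 * ρ / μ)) = (41 * (D2 * A2)) * ρ / μ := by ring
      rw [this, div_le_iff₀ hμ0]
      have t1 : 41 * (D2 * A2) ≤ μ := by linarith only [hM, hM0, hM1, hM2, hD0, hA20]
      have := mul_le_mul_of_nonneg_right t1 hρ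
      linarith only [this]
    have y4 : D2 * |c1| ≤ D2 * |c| + D2 * (A2 * ρ / μ) := by
      have := mul_le_mul_of_nonneg_left y2 hD2.le
      linarith
    rw [hρ1]
    have y5 : 0 ≤ D1 * |c| := by positivity
    have y6 : 0 ≤ D2 * |c| := by positivity
    have y7 : 0 ≤ (Dc + Dv + (18 * D0 + 13 * A1)) * |c| := by positivity
    have y8 : 0 ≤ D2 * (A2 * ρ / μ) := by positivity
    have y9 : (Dc + Dv + (18 * D0 + 13 * A1) + (D1 + 5 * D2)) * |c| =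
        (Dc + Dv + (18 * D0 + 13 * A1)) * |c| + D1 * |c| + 5 * (D2 * |c|) := by ring
    rw [y9]
    linarith
  · rw [← hμ, ← hs0]
    have e : 2 * (2 * c2) - c + 15 / 8 * ((dv a h - s0 * c) / μ) = 4 * c2 - c + 15 / 8 * ((dv a h - s0 * c) / μ) := by ring
    rw [e]
    refine z2.trans ?_
    apply div_le_div_of_nonneg_right _ (by positivity)
    apply mul_le_mul_of_nonneg_right _ hx0
    linarith
  · rw [hdR, ← hμ]
    refine z3.trans ?_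
    apply div_le_div_of_nonneg_right _ hr0.le
    apply mul_le_mul_of_nonneg_right _ hx0
    linarith

end Pool.Agent.Q251.MK
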